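import Pool.Agent.W907.SG.Stmts2
import Pool.Agent.W721.SG.MID
import Pool.Agent.W347.SG.VERT
import Pool.Agent.W597.SG.Eig
import Pool.Agent.W310.SG.Edge
import Pool.Agent.W52.SG.SUB
import Pool.Agent.W479.SG.Acyc
import Pool.Agent.W52.SG.TR
import Pool.Agent.W766.SG.Line
import Pool.Agent.W721.SG.ML
import Pool.Agent.W975.SG.Step1
import Pool.Agent.W435.SG.Step2
import Pool.Agent.W215.SG.Susp
import Pool.Agent.W293.SG.ClassB
import Pool.Agent.W67.SG.ClassA
import Pool.Agent.W21.SGL.Main
import Pool.Agent.W461.SG.NIL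
import Pool.Agent.W334.SG.Hodge
import Pool.Agent.W372.SG.FIN
import Pool.Agent.W143.SG.P
import Pool.Agent.W290.SG.HODR
import Pool.Agent.W15.SG.KAZ
import Pool.Agent.W334.SG.SmallLarge
import Pool.Agent.W338.SG.ADD
import Pool.Agent.W460.SG.ORD
import Pool.Agent.W397.SG.EUL

namespace Pool.Agent.W907.SG

theorem mid : S_MID := Pool.Agent.W721.SG.MID.mid
theorem con : S_CON := Pool.Agent.W721.SG.MID.con
theorem vert : S_VERT := Pool.Agent.W347.SGV.vert mid
theorem eig : S_EIG := Pool.Agent.W597.SG.eig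
theorem cone : S_CONE := Pool.Agent.W597.SG.cone
theorem edge : S_EDGE := Pool.Agent.W310.SG.edge con
theorem sub : S_SUB := Pool.Agent.W52.SG.sub mid
theorem acyc : S_ACYC := Pool.Agent.W479.SG.Acyc.acyc
theorem dim : S_DIM := Pool.Agent.W479.SG.Acyc.dim
theorem tr : S_TR := Pool.Agent.W52.SG.tr
theorem isoT : S_ISO := Pool.Agent.W52.SG.iso tr
theorem empty : S_EMPTY := Pool.Agent.W52.SG.empty
theorem line : S_LINE := Pool.Agent.W766.SG.Line.line
theorem ml : S_ML := Pool.Agent.W721.SG.ML.main sub line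
theorem step1 : S_STEP1 := Pool.Agent.W975.SG.step1 vert eig tr ml
theorem stepc : S_STEPC := Pool.Agent.W975.SG.stepc cone tr ml
theorem step2 : S_STEP2 := W435.SG.step2 edge eig tr ml
theorem suspT : S_SUSP := Pool.Agent.W215.SG.susp acyc sub dim
theorem classB : S_CLASSB := Pool.Agent.W293.SG.classB step1 step2 stepc suspT isoT empty
theorem classA : S_CLASSA := Pool.Agent.W67.SG.classA step1 step2 suspT isoT empty
theorem lueck : S_LUECK := Pool.Agent.W21.SGL.lueck
theorem nil : S_NIL := Pool.Agent.W461.SGN.nil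
theorem hodge : S_HODGE := Pool.Agent.W334.SG.hodge
theorem fin : S_FIN := Pool.Agent.W372.SG.t_FIN lueck nil hodge ml
theorem linep : S_LINEP := Pool.Agent.W143.SG.P.linep
theorem mlp : S_MLP := Pool.Agent.W143.SG.P.mlp sub
theorem nilp : S_NILP := Pool.Agent.W143.SG.P.nilp
theorem hodr : S_HODR := Pool.Agent.W290.SG.hodr
theorem charT : S_CHAR := Pool.Agent.W290.SG.charcmp
theorem kaz : S_KAZ := Pool.Agent.W15.SG.kaz
theorem small : S_SMALL := Pool.Agent.W334.SG.small kaz hodr
theorem large : S_LARGE := Pool.Agent.W334.SG.large lueck hodr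
theorem l2add : S_L2ADD := Pool.Agent.W338.SG.l2add small tr vert eig nilp large
theorem l2del : S_L2DEL := Pool.Agent.W338.SG.l2del small tr edge eig nilp large charT mlp
theorem ord : S_ORD := Pool.Agent.W460.SG.ord
theorem l2sub : S_L2SUB := Pool.Agent.W338.SG.l2sub l2add l2del ord suspT fin
theorem eul : S_EUL := Pool.Agent.W397.SG.eul ml

end Pool.Agent.W907.SG
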