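import Mathlib

/-!
# Homology of right-angled Coxeter groups with coefficients

`V` is a finite (linearly ordered) vertex set, `G` a graph on `V`; the flag complex of `G` is the nerve of the
right-angled Coxeter group `W_G`.  For a family `ρ v : M → M` of linear maps (a representation of `W_G`),
`KK G ρ A S i` is the space of `i`-chains: functions `c` on finite subsets `T` of `V`, supported on cliques
`T ⊆ A` with `i` elements, with `ρ t (c T) = - c T` for `t ∈ T ∪ S`.
-/

namespace Pool.Agent.W907.SG

section Basic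

variable {V : Type} [Fintype V] [LinearOrder V]

/-- the sign `(-1)^{#{u ∈ T : u < v}}` -/
def sg (v : V) (T : Finset V) : ℤ := (-1) ^ (T.filter (fun u => u < v)).card

omit [Fintype V] in
theorem sg_mul_self (v : V) (T : Finset V) : sg v T * sg v T = 1 := by
  unfold sg
  rw [← mul_pow]; simp

omit [Fintype V] in
theorem sg_eq_or (v : V) (T : Finset V) : sg v T = 1 ∨ sg v T = -1 := by
  unfold sg
  exact neg_one_pow_eq_or ℤ _

omit [Fintype V] in
theorem sg_insert (u v : V) (T : Finset V) (h : v ∉ T) :
    sg u (insert v T) = (if v < u then -1 else 1) * sg u T := by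
  unfold sg
  rw [Finset.filter_insert]
  split_ifs with h1
  · rw [Finset.card_insert_of_notMem (by simp [h]), pow_succ]; ring
  · simp

omit [Fintype V] in
/-- the sign rule -/
theorem sg_swap (u v : V) (T : Finset V) (huv : u ≠ v) (hu : u ∉ T) (hv : v ∉ T) :
    sg u (insert v T) * sg v T = - (sg v (insert u T) * sg u T) := by
  rw [sg_insert u v T hv, sg_insert v u T hu]
  rcases lt_or_gt_of_ne huv with h | h
  · simp [h, not_lt.mpr h.le]; ring
  · simp [h, not_lt.mpr (le_of_lt h)]; ring

variable {F M : Type} [Field F] [AddCommGroup M] [Module F M]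

/-- the boundary operator -/
def bd (F : Type) {V M : Type} [Fintype V] [LinearOrder V] [Field F] [AddCommGroup M] [Module F M] :
    (Finset V → M) →ₗ[F] (Finset V → M) where
  toFun c T := ∑ v ∈ Tᶜ, sg v T • c (insert v T)
  map_add' c d := by
    funext T
    simp [Finset.sum_add_distrib]
  map_smul' a c := by
    funext T
    simp only [Pi.smul_apply, RingHom.id_apply, Finset.smul_sum]
    refine Finset.sum_congr rfl fun v _ => ?_
    exact smul_comm _ _ _

theorem bd_apply (c : Finset V → M) (T : Finset V) :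
    bd F c T = ∑ v ∈ Tᶜ, sg v T • c (insert v T) := rfl

theorem bd_bd (c : Finset V → M) : bd F (bd F c) = 0 := by
  classical
  funext T
  rw [bd_apply]
  have h1 : ∀ v ∈ Tᶜ, sg v T • bd F c (insert v T)
      = ∑ u ∈ Tᶜ.erase v, (sg v T * sg u (insert v T)) • c (insert u (insert v T)) := by
    intro v hv
    rw [bd_apply, Finset.smul_sum]
    have : (insert v T)ᶜ = Tᶜ.erase v := by
      ext u; simp
    rw [this]
    exact Finset.sum_congr rfl fun u _ => by rw [smul_smul]
  rw [Finset.sum_congr rfl h1]
  rw [Finset.sum_sigma']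
  refine Finset.sum_involution (fun (x : Σ _ : V, V) _ => ⟨x.2, x.1⟩) ?_ ?_ ?_ ?_
  · rintro ⟨v, u⟩ h
    simp only [Finset.mem_sigma, Finset.mem_compl, Finset.mem_erase] at h
    obtain ⟨hv, huv, hu⟩ := h
    simp only
    rw [Finset.insert_comm v u T, ← add_smul]
    have := sg_swap u v T huv hu hv
    have h0 : sg v T * sg u (insert v T) + sg u T * sg v (insert u T) = 0 := by
      rw [mul_comm (sg v T), this]; ring
    rw [h0, zero_smul]
  · rintro ⟨v, u⟩ h _ h3
    simp only [Finset.mem_sigma, Finset.mem_compl, Finset.mem_erase] at h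
    simp only [Sigma.mk.injEq, heq_eq_eq] at h3
    exact h.2.1 h3.1
  · rintro ⟨v, u⟩ h
    simp only [Finset.mem_sigma, Finset.mem_compl, Finset.mem_erase] at h ⊢
    exact ⟨h.2.2, fun e => h.2.1 e.symm, h.1⟩
  · rintro ⟨v, u⟩ _
    rfl

/-- the `i`-chains -/
def KK (G : SimpleGraph V) (ρ : V → M →ₗ[F] M) (A S : Set V) (i : ℕ) : Submodule F (Finset V → M) where
  carrier := {c | (∀ T : Finset V, ¬ (G.IsClique (T : Set V) ∧ (T : Set V) ⊆ A ∧ T.card = i) → c T = 0) ∧
      ∀ (T : Finset V) (t : V), (t ∈ T ∨ t ∈ S) → ρ t (c T) = - c T}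
  add_mem' := by
    rintro c d ⟨h1, h2⟩ ⟨h3, h4⟩
    refine ⟨fun T hT => by simp [h1 T hT, h3 T hT], fun T t ht => ?_⟩
    simp only [Pi.add_apply, map_add, h2 T t ht, h4 T t ht]; abel
  zero_mem' := by
    refine ⟨fun T _ => rfl, fun T t _ => by simp⟩
  smul_mem' := by
    rintro a c ⟨h1, h2⟩
    refine ⟨fun T hT => by simp [h1 T hT], fun T t ht => ?_⟩
    simp only [Pi.smul_apply, map_smul, h2 T t ht, smul_neg]

omit [Fintype V] [LinearOrder V] in
theorem mem_KK {G : SimpleGraph V} {ρ : V → M →ₗ[F] M} {A S : Set V} {i : ℕ} {c : Finset V → M} :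
    c ∈ KK G ρ A S i ↔
      (∀ T : Finset V, ¬ (G.IsClique (T : Set V) ∧ (T : Set V) ⊆ A ∧ T.card = i) → c T = 0) ∧
      ∀ (T : Finset V) (t : V), (t ∈ T ∨ t ∈ S) → ρ t (c T) = - c T := Iff.rfl

theorem bd_mem_KK {G : SimpleGraph V} {ρ : V → M →ₗ[F] M} {A S : Set V} {i : ℕ} {c : Finset V → M}
    (h : c ∈ KK G ρ A S (i + 1)) : bd F c ∈ KK G ρ A S i := by
  rw [mem_KK] at h ⊢
  obtain ⟨h1, h2⟩ := h
  refine ⟨fun T hT => ?_, fun T t ht => ?_⟩
  · rw [bd_apply]
    refine Finset.sum_eq_zero fun v hv => ?_
    rw [h1 (insert v T), smul_zero]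
    rintro ⟨h3, h4, h5⟩
    apply hT
    refine ⟨h3.subset (by simp), fun x hx => h4 (by simp at hx ⊢; exact Or.inr hx), ?_⟩
    rw [Finset.card_insert_of_notMem (by simpa using hv)] at h5
    omega
  · rw [bd_apply, map_sum, ← Finset.sum_neg_distrib]
    refine Finset.sum_congr rfl fun v _ => ?_
    rw [map_zsmul, h2 (insert v T) t (by rcases ht with h | h; · left; simp [h]
                                         · right; exact h), smul_neg]

/-- `i`-cycles -/
def ZZ (G : SimpleGraph V) (ρ : V → M →ₗ[F] M) (A S : Set V) (i : ℕ) : Submodule F (Finset V → M) :=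
  KK G ρ A S i ⊓ LinearMap.ker (bd F)

/-- `i`-boundaries -/
def BB (G : SimpleGraph V) (ρ : V → M →ₗ[F] M) (A S : Set V) (i : ℕ) : Submodule F (Finset V → M) :=
  (KK G ρ A S (i + 1)).map (bd F)

theorem BB_le_ZZ (G : SimpleGraph V) (ρ : V → M →ₗ[F] M) (A S : Set V) (i : ℕ) :
    BB G ρ A S i ≤ ZZ G ρ A S i := by
  rintro _ ⟨c, hc, rfl⟩
  exact ⟨bd_mem_KK hc, bd_bd c⟩

/-- the `i`-th Betti number -/
noncomputable def beta (G : SimpleGraph V) (ρ : V → M →ₗ[F] M) (A S : Set V) (i : ℕ) : ℕ :=
  Module.finrank F (ZZ G ρ A S i) - Module.finrank F (BB G ρ A S i)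

end Basic

/-- permutation-type representation: functions on `X`, `(pull F a v f) x = f (a v x)` -/
def pull (F : Type) {V X : Type} [Field F] (a : V → X → X) (v : V) : (X → F) →ₗ[F] (X → F) :=
  LinearMap.funLeft F F (a v)

theorem pull_apply (F : Type) {V X : Type} [Field F] (a : V → X → X) (v : V) (f : X → F) (x : X) :
    pull F a v f x = f (a v x) := rfl

/-- words in which every letter occurs an even number of times, expressed with characters -/
def EvenWord {V : Type} (l : List V) : Prop := ∀ χ : V → ℤˣ, (l.map χ).prod = 1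

/-- sets with an action of `W_G` (the generator `v` acts by `a v`), with an equivariant map to `(ℤ/2)^V`, on which
the even words act as elements of `p`-power order -/
structure PSet (p : ℕ) {V : Type} (G : SimpleGraph V) (X : Type) where
  a : V → X → X
  inv : ∀ v x, a v (a v x) = x
  comm : ∀ u v, G.Adj u v → ∀ x, a u (a v x) = a v (a u x)
  sgn : V → X → Bool
  sgn_self : ∀ v x, sgn v (a v x) = !(sgn v x)
  sgn_other : ∀ u v, u ≠ v → ∀ x, sgn u (a v x) = sgn u x
  ptype : ∀ l : List V, EvenWord l → ∃ k : ℕ, ∀ x, (fun y => l.foldr a y)^[p ^ k] x = x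

/-- smallness of the `i`-th mod 3 Betti numbers along 3-towers -/
def SP {V : Type} (G : SimpleGraph V) (i : ℕ) : Prop :=
  ∀ (_ : Fintype V) (_ : LinearOrder V) (N : ℕ),
    ∃ (X : Type) (_ : Fintype X) (_ : Nonempty X) (P : PSet 3 G X),
      N * beta G (pull (ZMod 3) P.a) Set.univ ∅ i ≤ Fintype.card X

/-! ### The right-angled Coxeter group and the final statement -/

open Classical in
/-- the Coxeter matrix of the right-angled Coxeter group of `G`: `m(u,v) = 2` if `u, v` are adjacent, `∞` (that is
`0` in Mathlib's convention) if they are distinct and not adjacent -/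
noncomputable def cox {V : Type} (G : SimpleGraph V) : CoxeterMatrix V where
  M := Matrix.of fun u v => if u = v then 1 else if G.Adj u v then 2 else 0
  isSymm := by
    ext u v
    simp only [Matrix.transpose_apply, Matrix.of_apply]
    by_cases h : u = v
    · simp [h]
    · simp [h, Ne.symm h, G.adj_comm]
  diagonal := by simp
  off_diagonal := by
    intro u v h
    simp only [Matrix.of_apply, h, if_false]
    split_ifs <;> simp

/-- the right-angled Coxeter group of `G` -/
abbrev W {V : Type} (G : SimpleGraph V) : Type := (cox G).Group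

/-- An `ℓ²` harmonic `i`-chain of the Davis complex of `W G`. An `i`-cube is a coset `w W_T` with `T` a clique with
`i` elements; `c w T` is the coefficient of the cube `w W_T` with the orientation given by the corner `w` and the
order of `T`; crossing to the corner `w t` (`t ∈ T`) reverses the orientation. -/
structure IsHarm {V : Type} [Fintype V] [LinearOrder V] (G : SimpleGraph V) (i : ℕ)
    (c : W G → Finset V → ℝ) : Prop where
  supp : ∀ w (T : Finset V), ¬ (G.IsClique (T : Set V) ∧ T.card = i) → c w T = 0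
  anti : ∀ w (T : Finset V) t, t ∈ T → c (w * (cox G).simple t) T = - c w T
  summable : Summable fun x : W G × Finset V => (c x.1 x.2) ^ 2
  cycle : ∀ w (T : Finset V), ∑ v ∈ Tᶜ, (sg v T : ℝ) * c w (insert v T) = 0
  cocycle : ∀ w (T : Finset V), G.IsClique (T : Set V) →
    ∑ t ∈ T, (sg t (T.erase t) : ℝ) * (c w (T.erase t) - c (w * (cox G).simple t) (T.erase t)) = 0

/-- the Davis complex of `W G` has no nonzero `ℓ²` harmonic `i`-chain, i.e. its reduced `i`-th `ℓ²`-homology
vanishes -/
def L2Van {V : Type} [Fintype V] [LinearOrder V] (G : SimpleGraph V) (i : ℕ) : Prop :=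
  ∀ c : W G → Finset V → ℝ, IsHarm G i c → c = 0

/-! ### Graph constructions -/

/-- the flag complex of `esub G s t` is the stellar subdivision of the flag complex of `G` at the edge `st` -/
def esub {V : Type} (G : SimpleGraph V) (s t : V) : SimpleGraph (Option V) where
  Adj x y := match x, y with
    | some a, some b => G.Adj a b ∧ ¬ (a = s ∧ b = t) ∧ ¬ (a = t ∧ b = s)
    | none, some a => a = s ∨ a = t ∨ (G.Adj a s ∧ G.Adj a t)
    | some a, none => a = s ∨ a = t ∨ (G.Adj a s ∧ G.Adj a t)
    | none, none => False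
  symm := ⟨by
    intro x y h
    cases x <;> cases y <;> simp_all [G.adj_comm]
    try tauto⟩
  loopless := ⟨by
    intro x
    cases x <;> simp⟩

/-- the suspension -/
def susp {V : Type} (G : SimpleGraph V) : SimpleGraph (V ⊕ Bool) where
  Adj x y := match x, y with
    | Sum.inl a, Sum.inl b => G.Adj a b
    | Sum.inl _, Sum.inr _ => True
    | Sum.inr _, Sum.inl _ => True
    | Sum.inr _, Sum.inr _ => False
  symm := ⟨by
    intro x y h
    cases x <;> cases y <;> simp_all [G.adj_comm]⟩
  loopless := ⟨by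
    intro x
    cases x <;> simp⟩

/-- (graphs of) flag spheres of dimension `n-1` obtained from cross-polytopes by edge subdivisions (and
suspensions): the nerves of the 2-truncated `n`-cubes -/
inductive Trunc : ℕ → ∀ {V : Type}, SimpleGraph V → Prop
  | empty : Trunc 0 (⊥ : SimpleGraph Empty)
  | susp {n : ℕ} {V : Type} (G : SimpleGraph V) : Trunc n G → Trunc (n + 1) (susp G)
  | sub {n : ℕ} {V : Type} (G : SimpleGraph V) (s t : V) : G.Adj s t → Trunc n G → Trunc n (esub G s t)
  | iso {n : ℕ} {V U : Type} (G : SimpleGraph V) (H : SimpleGraph U) : Nonempty (G ≃g H) → Trunc n G → Trunc n H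

/-- the larger class used for vanishing above the middle dimension -/
inductive Above : ℕ → ∀ {V : Type}, SimpleGraph V → Prop
  | empty : Above 0 (⊥ : SimpleGraph Empty)
  | susp {n : ℕ} {V : Type} (G : SimpleGraph V) : Above n G → Above (n + 1) (susp G)
  | sub {n : ℕ} {V : Type} (G : SimpleGraph V) (s t : V) : G.Adj s t → Above n G → Above n (esub G s t)
  | loc {m : ℕ} {V : Type} [Finite V] (G : SimpleGraph V) :
      (∀ v, Above (2 * m + 1) (G.induce (G.neighborSet v))) → Above (2 * m + 2) G
  | iso {n : ℕ} {V U : Type} (G : SimpleGraph V) (H : SimpleGraph U) : Nonempty (G ≃g H) → Above n G → Above n H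

end Pool.Agent.W907.SG
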